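import Pool.Agent.R69.TypedGadgets

/-!
# For all `k ≥ ℓ ≥ 2` some graph arrows `(K_{k+1}, K_{k-1}, K_ℓ)` but not `(K_k, K_k, K_ℓ)`
-/

set_option autoImplicit false

namespace Pool.Agent.Results.MP_5efe44_co.AllPairs

open Pool.Agent.R69.TypedFolkman Finset

/-- `G → (K_a, K_b, K_c)`: every colouring of the edges of `G` with the colours `0, 1, 2` has `a`
pairwise adjacent vertices with all pairs of colour `0`, or `b` of colour `1`, or `c` of colour `2`.
(The values of the colouring on pairs that are not edges play no role.) -/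
def Arrows {n : ℕ} (G : SimpleGraph (Fin n)) (a b c : ℕ) : Prop :=
  ∀ χ : Sym2 (Fin n) → Fin 3, MonoClique G χ 0 a ∨ MonoClique G χ 1 b ∨ MonoClique G χ 2 c

/-- the pieces for `ℓ ≥ 3` -/
def typ3 (k l : ℕ) (g : Fin 4) (x y : Fin (k + 1)) : Option (Fin 3) :=
  if g = 0 then (if sp x y then some 1 else some 0)
  else if g = 1 then (if sp x y then some 2 else some 0)
  else if g = 2 then (if sp x y then some 2 else some 1)
  else (if (decide ((x : ℕ) < l - 1) && decide ((y : ℕ) < l - 1)) = true then some 2 else none)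

theorem typ3_symm (k l : ℕ) (g : Fin 4) (x y : Fin (k + 1)) :
    typ3 k l g x y = typ3 k l g y x := by
  unfold typ3
  rw [sp_symm x y, Bool.and_comm]

theorem main3 {k l : ℕ} (hl : 3 ≤ l) (hk : l ≤ k) :
    ∃ (n : ℕ) (G : SimpleGraph (Fin n)), ¬ Arrows G k k l ∧ Arrows G (k + 1) (k - 1) l := by
  classical
  -- the bounds on the cliques
  let K : Fin 3 → ℕ := ![k - 1, k - 1, l - 1]
  have hfree : ∀ u, (pieces (typ3 k l) (typ3_symm k l) u).CliqueFree (K u + 1) := by
    intro u
    fin_cases u
    · -- type 0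
      refine pieces_cliqueFree _ _ _ _ (by simp) ?_
      intro g s hs
      have hs : s.card = k := by
        have : K 0 + 1 = k := by simp only [K, Matrix.cons_val_zero]; omega
        exact hs.trans this
      obtain ⟨x, hx, y, hy, hxy, hsp⟩ := exists_sp (by omega) s hs
      refine ⟨x, hx, y, hy, hxy, ?_⟩
      unfold typ3
      fin_cases g <;> simp [hsp]
    · -- type 1
      refine pieces_cliqueFree _ _ _ _ (by simp) ?_
      intro g s hs
      have hs : s.card = k := by
        have : K 1 + 1 = k := by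
          simp only [K, Matrix.cons_val_one, Matrix.cons_val_zero]; omega
        exact hs.trans this
      by_cases hg : g = 0
      · subst hg
        obtain ⟨x, hx, y, hy, hxy, hsp⟩ := exists_not_sp s (by omega)
        refine ⟨x, hx, y, hy, hxy, ?_⟩
        simp [typ3, hsp]
      · obtain ⟨x, hx, y, hy, hxy, hsp⟩ := exists_sp (by omega) s hs
        refine ⟨x, hx, y, hy, hxy, ?_⟩
        unfold typ3
        rw [if_neg hg]
        split_ifs <;> simp
    · -- type 2
      refine pieces_cliqueFree _ _ _ _ (by simp) ?_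
      intro g s hs
      have hs : s.card = l := by
        have : K 2 + 1 = l := by
          simp [K]; omega
        exact hs.trans this
      by_cases hg : g = 3
      · subst hg
        -- some element is at least `l - 1`
        have hex : ∃ x ∈ s, ¬ (x : ℕ) < l - 1 := by
          by_contra hcon
          push Not at hcon
          have h1 : s.card ≤ (Finset.range (l - 1)).card := by
            refine card_le_card_of_injOn (fun x : Fin (k + 1) => (x : ℕ)) ?_ ?_
            · intro x hx
              simp only [coe_range, Set.mem_Iio]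
              exact hcon x hx
            · intro x _ y _ hxy
              exact Fin.ext hxy
          rw [card_range] at h1
          omega
        obtain ⟨x, hx, hxl⟩ := hex
        obtain ⟨y, hy, hyx⟩ := exists_mem_ne (show 1 < s.card by omega) x
        refine ⟨x, hx, y, hy, Ne.symm hyx, ?_⟩
        simp [typ3, hxl]
      · obtain ⟨x, hx, y, hy, hxy, hsp⟩ := exists_not_sp s (by omega)
        refine ⟨x, hx, y, hy, hxy, ?_⟩
        unfold typ3
        rw [hsp]
        fin_cases g <;> simp at hg ⊢
  obtain ⟨n, Γ, hd, hcf, harr⟩ := typedFolkman K (fun u => by fin_cases u <;> simp [K] <;> omega)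
    (Fin 3) (Fin 4 × Fin (k + 1)) (pieces (typ3 k l) (typ3_symm k l))
    (fun u v p q h1 h2 => pieces_disj _ _ u v p q h1 h2) hfree
  refine ⟨n, unionGraph Γ, ?_, ?_⟩
  · -- the colouring with the types
    obtain ⟨χ, hχ⟩ := exists_type_colouring Γ hd
    intro h
    have key : ∀ u : Fin 3, ¬ MonoClique (unionGraph Γ) χ u (K u + 1) := by
      rintro u ⟨s, hs, hcl⟩
      refine hcf u s ⟨?_, hs⟩
      intro x hx y hy hxy
      obtain ⟨⟨v, hv⟩, hc⟩ := hcl x hx y hy hxy
      rw [hχ v x y hv] at hc
      rw [← hc]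
      exact hv
    rcases h χ with h0 | h1 | h2
    · exact key 0 (by
        have : K 0 + 1 = k := by simp only [K, Matrix.cons_val_zero]; omega
        rw [this]; exact h0)
    · exact key 1 (by
        have : K 1 + 1 = k := by
          simp only [K, Matrix.cons_val_one, Matrix.cons_val_zero]; omega
        rw [this]; exact h1)
    · exact key 2 (by
        have : K 2 + 1 = l := by simp [K]; omega
        rw [this]; exact h2)
  · intro χ
    obtain ⟨e, c, he⟩ := harr χ
    have he' : ∀ p q u, (pieces (typ3 k l) (typ3_symm k l) u).Adj p q →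
        (Γ u).Adj (e p) (e q) ∧ χ s(e p, e q) = c u := fun p q u h => he p q u h
    obtain ⟨s₀, hs₀, hsp₀⟩ := exists_set_not_sp (k := k) (by omega)
    -- the cliques
    have m0 : MonoClique (unionGraph Γ) χ (c 0) (k - 1) := by
      rw [← hs₀]
      refine monoClique_of_piece _ _ Γ χ e c he' 0 s₀ _ fun x hx y hy hxy => ⟨0, ?_, rfl⟩
      simp [typ3, hsp₀ x hx y hy hxy]
    have m1 : MonoClique (unionGraph Γ) χ (c 1) (k - 1) := by
      rw [← hs₀]
      refine monoClique_of_piece _ _ Γ χ e c he' 2 s₀ _ fun x hx y hy hxy => ⟨1, ?_, rfl⟩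
      simp [typ3, hsp₀ x hx y hy hxy]
    have m2 : MonoClique (unionGraph Γ) χ (c 2) (l - 1) := by
      have hc : ((univ : Finset (Fin (k + 1))).filter
          fun x : Fin (k + 1) => (x : ℕ) < l - 1).card = l - 1 := by
        rw [Fin.card_filter_val_lt]
        omega
      rw [← hc]
      refine monoClique_of_piece _ _ Γ χ e c he' 3 _ _ fun x hx y hy hxy => ⟨2, ?_, rfl⟩
      rw [mem_filter] at hx hy
      simp [typ3, hx.2, hy.2]
    have m01 : c 0 = c 1 → MonoClique (unionGraph Γ) χ (c 0) (k + 1) := by
      intro h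
      have hc : (univ : Finset (Fin (k + 1))).card = k + 1 := by simp
      rw [← hc]
      refine monoClique_of_piece _ _ Γ χ e c he' 0 _ _ fun x hx y hy hxy => ?_
      by_cases hsp : sp x y = true
      · exact ⟨1, by simp [typ3, hsp], h.symm⟩
      · exact ⟨0, by simp [typ3, hsp], rfl⟩
    have m02 : c 0 = c 2 → MonoClique (unionGraph Γ) χ (c 0) (k + 1) := by
      intro h
      have hc : (univ : Finset (Fin (k + 1))).card = k + 1 := by simp
      rw [← hc]
      refine monoClique_of_piece _ _ Γ χ e c he' 1 _ _ fun x hx y hy hxy => ?_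
      by_cases hsp : sp x y = true
      · exact ⟨2, by simp [typ3, hsp], h.symm⟩
      · exact ⟨0, by simp [typ3, hsp], rfl⟩
    have m12 : c 1 = c 2 → MonoClique (unionGraph Γ) χ (c 1) (k + 1) := by
      intro h
      have hc : (univ : Finset (Fin (k + 1))).card = k + 1 := by simp
      rw [← hc]
      refine monoClique_of_piece _ _ Γ χ e c he' 2 _ _ fun x hx y hy hxy => ?_
      by_cases hsp : sp x y = true
      · exact ⟨2, by simp [typ3, hsp], h.symm⟩
      · exact ⟨1, by simp [typ3, hsp], rfl⟩
    have h3 : ∀ i : Fin 3, i = 0 ∨ i = 1 ∨ i = 2 := by decide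
    rcases h3 (c 0) with h0 | h0 | h0
    · rcases h3 (c 1) with h1 | h1 | h1
      · left; rw [h0] at m01; exact m01 h1.symm
      · right; left; rw [h1] at m1; exact m1
      · rcases h3 (c 2) with h2 | h2 | h2
        · left; rw [h0] at m02; exact m02 h2.symm
        · rcases hk.lt_or_eq with hlt | heq
          · right; right; rw [h1] at m1; exact m1.mono (by omega)
          · right; left; rw [h2] at m2; rw [← heq]; exact m2
        · right; right; rw [h1] at m12; exact (m12 h2.symm).mono (by omega)
    · right; left; rw [h0] at m0; exact m0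
    · rcases h3 (c 1) with h1 | h1 | h1
      · rcases h3 (c 2) with h2 | h2 | h2
        · left; rw [h1] at m12; exact m12 h2.symm
        · rcases hk.lt_or_eq with hlt | heq
          · right; right; rw [h0] at m0; exact m0.mono (by omega)
          · right; left; rw [h2] at m2; rw [← heq]; exact m2
        · right; right; rw [h0] at m02; exact (m02 h2.symm).mono (by omega)
      · right; left; rw [h1] at m1; exact m1
      · right; right; rw [h0] at m01; exact (m01 h1.symm).mono (by omega)

/-- the pieces for `ℓ = 2` -/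
def typ2 (k : ℕ) (g : Fin 2) (x y : Fin (k + 1)) : Option (Fin 2) :=
  if g = 0 then (if sp x y then some 1 else some 0)
  else (if sp x y then some 0 else some 1)

theorem typ2_symm (k : ℕ) (g : Fin 2) (x y : Fin (k + 1)) :
    typ2 k g x y = typ2 k g y x := by
  unfold typ2
  rw [sp_symm x y]

theorem main2 {k : ℕ} (hk : 3 ≤ k) :
    ∃ (n : ℕ) (G : SimpleGraph (Fin n)), ¬ Arrows G k k 2 ∧ Arrows G (k + 1) (k - 1) 2 := by
  classical
  have hfree : ∀ u : Fin 2, (pieces (typ2 k) (typ2_symm k) u).CliqueFree (k - 1 + 1) := by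
    intro u
    refine pieces_cliqueFree _ _ _ _ (by simp) ?_
    intro g s hs
    have hs : s.card = k := by omega
    obtain ⟨x, hx, y, hy, hxy, hsp⟩ := exists_sp (by omega) s hs
    obtain ⟨x', hx', y', hy', hxy', hsp'⟩ := exists_not_sp s (by omega)
    by_cases hgu : g = u
    · refine ⟨x, hx, y, hy, hxy, ?_⟩
      subst hgu
      unfold typ2
      fin_cases g <;> simp [hsp]
    · refine ⟨x', hx', y', hy', hxy', ?_⟩
      unfold typ2
      fin_cases g <;> fin_cases u <;> simp [hsp'] at hgu ⊢
  obtain ⟨n, Γ, hd, hcf, harr⟩ := typedFolkman (fun _ : Fin 2 => k - 1) (fun u => by omega)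
    (Fin 3) (Fin 2 × Fin (k + 1)) (pieces (typ2 k) (typ2_symm k))
    (fun u v p q h1 h2 => pieces_disj _ _ u v p q h1 h2) hfree
  refine ⟨n, unionGraph Γ, ?_, ?_⟩
  · obtain ⟨χ, hχ⟩ := exists_type_colouring Γ hd
    intro h
    have key : ∀ u : Fin 2, ¬ MonoClique (unionGraph Γ) (fun z => (χ z).castSucc) u.castSucc k := by
      rintro u ⟨s, hs, hcl⟩
      refine hcf u s ⟨?_, by omega⟩
      intro x hx y hy hxy
      obtain ⟨⟨v, hv⟩, hc⟩ := hcl x hx y hy hxy
      simp only at hc
      rw [hχ v x y hv] at hc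
      rw [← Fin.castSucc_injective _ hc]
      exact hv
    rcases h (fun z => (χ z).castSucc) with h0 | h1 | h2
    · exact key 0 h0
    · exact key 1 h1
    · obtain ⟨s, hs, hcl⟩ := h2
      obtain ⟨x, y, hxy, rfl⟩ := card_eq_two.1 hs
      have := (hcl x (by simp) y (by simp) hxy).2
      have h5 : ∀ i : Fin 2, i.castSucc ≠ (2 : Fin 3) := by decide
      exact h5 _ this
  · intro χ
    obtain ⟨e, c, he⟩ := harr χ
    have he' : ∀ p q u, (pieces (typ2 k) (typ2_symm k) u).Adj p q →
        (Γ u).Adj (e p) (e q) ∧ χ s(e p, e q) = c u := fun p q u h => he p q u h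
    obtain ⟨s₀, hs₀, hsp₀⟩ := exists_set_not_sp (k := k) hk
    have m0 : MonoClique (unionGraph Γ) χ (c 0) (k - 1) := by
      rw [← hs₀]
      refine monoClique_of_piece _ _ Γ χ e c he' 0 s₀ _ fun x hx y hy hxy => ⟨0, ?_, rfl⟩
      simp [typ2, hsp₀ x hx y hy hxy]
    have m1 : MonoClique (unionGraph Γ) χ (c 1) (k - 1) := by
      rw [← hs₀]
      refine monoClique_of_piece _ _ Γ χ e c he' 1 s₀ _ fun x hx y hy hxy => ⟨1, ?_, rfl⟩
      simp [typ2, hsp₀ x hx y hy hxy]
    have m01 : c 0 = c 1 → MonoClique (unionGraph Γ) χ (c 0) (k + 1) := by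
      intro h
      have hc : (univ : Finset (Fin (k + 1))).card = k + 1 := by simp
      rw [← hc]
      refine monoClique_of_piece _ _ Γ χ e c he' 0 _ _ fun x hx y hy hxy => ?_
      by_cases hsp : sp x y = true
      · exact ⟨1, by simp [typ2, hsp], h.symm⟩
      · exact ⟨0, by simp [typ2, hsp], rfl⟩
    have h3 : ∀ i : Fin 3, i = 0 ∨ i = 1 ∨ i = 2 := by decide
    rcases h3 (c 0) with h0 | h0 | h0
    · rcases h3 (c 1) with h1 | h1 | h1
      · left; rw [h0] at m01; exact m01 h1.symm
      · right; left; rw [h1] at m1; exact m1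
      · right; right; rw [h1] at m1; exact m1.mono (by omega)
    · right; left; rw [h0] at m0; exact m0
    · right; right; rw [h0] at m0; exact m0.mono (by omega)

/-- **Main theorem.** For all integers `k ≥ ℓ ≥ 2` there is a graph `G` with
`G ↛ (K_k, K_k, K_ℓ)` and `G → (K_{k+1}, K_{k-1}, K_ℓ)`. -/
theorem result : ∀ k l : ℕ, 2 ≤ l → l ≤ k →
    ∃ (n : ℕ) (G : SimpleGraph (Fin n)), ¬ Arrows G k k l ∧ Arrows G (k + 1) (k - 1) l := by
  intro k l hl hk
  rcases hl.lt_or_eq with hl3 | rfl
  · exact main3 hl3 hk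
  · rcases hk.lt_or_eq with hk3 | rfl
    · exact main2 hk3
    · -- `k = ℓ = 2`
      refine ⟨1, ⊥, ?_, ?_⟩
      · intro h
        have key : ∀ i : Fin 3, ¬ MonoClique (⊥ : SimpleGraph (Fin 1)) (fun _ => 0) i 2 := by
          rintro i ⟨s, hs, hcl⟩
          obtain ⟨x, y, hxy, rfl⟩ := card_eq_two.1 hs
          exact hxy (Subsingleton.elim _ _)
        rcases h (fun _ => 0) with h0 | h0 | h0
        · exact key _ h0
        · exact key _ h0
        · exact key _ h0
      · intro χ
        right; left
        refine ⟨{0}, by simp, ?_⟩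
        intro x hx y hy hxy
        exact absurd (Subsingleton.elim _ _) hxy

end Pool.Agent.Results.MP_5efe44_co.AllPairs
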